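import Mathlib

set_option autoImplicit false

namespace Pool.Agent.Results.MP_8ede36_co.Plane

abbrev E := EuclideanSpace ℝ (Fin 2)

def N (n : ℕ) : ℝ := 4 * ((n : ℝ) + 3) ^ 2

theorem N_pos (n : ℕ) : 0 < N n := by unfold N; positivity

noncomputable def pt (q : ℕ × ℤ × ℤ) : E := !₂[q.2.1 / N q.1, q.2.2 / N q.1]

def V : Type := {q : ℕ × ℤ × ℤ // (q.1 : ℝ) ≤ ‖pt q‖ + 1}

noncomputable def f (v : V) : E := pt v.1

def G : SimpleGraph V where
  Adj u v := u ≠ v ∧ dist (f u) (f v) ≤ 1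
  symm := ⟨fun _ _ h => ⟨h.1.symm, by rw [dist_comm]; exact h.2⟩⟩
  loopless := ⟨fun _ h => h.1 rfl⟩

theorem round_close (n : ℕ) (x : ℝ) : |(round (x * N n) : ℝ) / N n - x| ≤ 1 / (2 * N n) := by
  have h := abs_sub_round (x * N n)
  have h1 := N_pos n
  rw [show (round (x * N n) : ℝ) / N n - x = -(x * N n - round (x * N n)) / N n by
    field_simp; ring, abs_div, abs_neg, abs_of_pos h1, div_le_div_iff₀ h1 (by positivity)]
  nlinarith

theorem exists_near (y : E) : ∃ v : V, dist (f v) y ≤ 1 / (4 * (‖y‖ + 2) ^ 2) := by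
  let n := ⌊‖y‖⌋₊
  let q : ℕ × ℤ × ℤ := (n, round (y 0 * N n), round (y 1 * N n))
  have h1 := N_pos n
  have h2 : dist (pt q) y ≤ 1 / N n := by
    rw [EuclideanSpace.dist_eq, Fin.sum_univ_two, Real.sqrt_le_iff]
    refine ⟨by positivity, ?_⟩
    have a0 := round_close n (y 0)
    have a1 := round_close n (y 1)
    have e0 : dist (pt q 0) (y 0) ≤ 1 / (2 * N n) := by rw [Real.dist_eq]; simpa [pt, q] using a0
    have e1 : dist (pt q 1) (y 1) ≤ 1 / (2 * N n) := by rw [Real.dist_eq]; simpa [pt, q] using a1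
    have e2 : 1 / (2 * N n) = (1 / N n) / 2 := by field_simp
    rw [e2] at e0 e1
    have p0 : 0 ≤ dist (pt q 0) (y 0) := dist_nonneg
    have p1 : 0 ≤ dist (pt q 1) (y 1) := dist_nonneg
    nlinarith
  have h3 : ‖y‖ < n + 1 := Nat.lt_floor_add_one _
  have h4 : (n : ℝ) ≤ ‖y‖ := Nat.floor_le (norm_nonneg _)
  have h5 : 1 / N n ≤ 1 / (4 * (‖y‖ + 2) ^ 2) := by
    apply one_div_le_one_div_of_le (by positivity)
    unfold N
    have := norm_nonneg y
    nlinarith
  have h6 : 1 / N n ≤ 1 := by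
    rw [div_le_one h1]
    unfold N
    have : (0 : ℝ) ≤ n := Nat.cast_nonneg _
    nlinarith
  refine ⟨⟨q, ?_⟩, h2.trans h5⟩
  have h7 := norm_sub_norm_le y (pt q)
  rw [← dist_eq_norm, dist_comm] at h7
  show (n : ℝ) ≤ _
  linarith

noncomputable def r (y : E) : V := (exists_near y).choose

theorem r_spec (y : E) : dist (f (r y)) y ≤ 1 / (4 * (‖y‖ + 2) ^ 2) := (exists_near y).choose_spec

theorem r_quarter (y : E) : dist (f (r y)) y ≤ 1 / 4 := by
  refine (r_spec y).trans (one_div_le_one_div_of_le (by norm_num) ?_)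
  have := norm_nonneg y
  nlinarith

def Re (c : ℝ) (u v : V) : Prop := ∃ p : G.Walk u v, (p.length : ℝ) ≤ c

theorem Re.trans {a b : ℝ} {u v w : V} (h1 : Re a u v) (h2 : Re b v w) : Re (a + b) u w := by
  obtain ⟨p, hp⟩ := h1
  obtain ⟨q, hq⟩ := h2
  refine ⟨p.append q, ?_⟩
  rw [SimpleGraph.Walk.length_append]
  push_cast
  linarith

theorem Re.symm {a : ℝ} {u v : V} (h1 : Re a u v) : Re a v u := by
  obtain ⟨p, hp⟩ := h1
  exact ⟨p.reverse, by simpa using hp⟩

theorem Re.mono {a b : ℝ} {u v : V} (h1 : Re a u v) (h : a ≤ b) : Re b u v := by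
  obtain ⟨p, hp⟩ := h1
  exact ⟨p, hp.trans h⟩

theorem Re.one {u v : V} (h : dist (f u) (f v) ≤ 1) : Re 1 u v := by
  by_cases e : u = v
  · subst e
    exact ⟨.nil, by simp⟩
  · exact ⟨.cons ⟨e, h⟩ .nil, by simp⟩

theorem dist_rr (x y : E) :
    dist (f (r x)) (f (r y)) ≤ dist (f (r x)) x + dist x y + dist (f (r y)) y := by
  have := dist_triangle4 (f (r x)) x y (f (r y))
  rwa [dist_comm y] at this

theorem ray (m e : E) (he : ‖e‖ = 1) (hm : ∀ t : ℝ, 0 ≤ t → t ≤ ‖m + t • e‖) :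
    ∀ (k : ℕ) (t : ℝ), 0 ≤ t → t ≤ k / 2 → Re (t + 2 - 1 / (t + 1)) (r m) (r (m + t • e)) := by
  have small : ∀ t : ℝ, 0 ≤ t → t ≤ 1 / 2 → Re (t + 2 - 1 / (t + 1)) (r m) (r (m + t • e)) := by
    intro t h0 h1
    refine (Re.one ?_).mono ?_
    · have a1 := dist_rr m (m + t • e)
      have a2 := r_quarter m
      have a3 := r_quarter (m + t • e)
      rw [dist_self_add_right, norm_smul, he, Real.norm_of_nonneg h0] at a1
      linarith
    · have : 1 / (t + 1) ≤ 1 := by rw [div_le_one (by linarith)]; linarith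
      linarith
  intro k
  induction k with
  | zero => intro t h0 h1; exact small t h0 (by simp at h1; linarith)
  | succ k ih =>
    intro t h0 h1
    by_cases h2 : t ≤ 1 / 2
    · exact small t h0 h2
    push Not at h2
    have p1 : 0 < t + 1 := by linarith
    let ε : ℝ := 1 / (4 * (t + 1) ^ 2)
    have e0 : 0 < ε := by positivity
    have e1 : ε ≤ 1 / 4 := one_div_le_one_div_of_le (by norm_num) (by nlinarith)
    let s : ℝ := max 0 (t - (1 - 2 * ε))
    have s0 : 0 ≤ s := le_max_left _ _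
    have s1 : t - (1 - 2 * ε) ≤ s := le_max_right _ _
    have s2 : s ≤ t - 1 / 2 := max_le (by linarith) (by linarith)
    have b : ∀ x : ℝ, 0 ≤ x → t - 1 ≤ x → dist (f (r (m + x • e))) (m + x • e) ≤ ε := by
      intro x x0 x1
      refine (r_spec _).trans (one_div_le_one_div_of_le (by positivity) ?_)
      have := hm x x0
      nlinarith
    have c1 : Re 1 (r (m + s • e)) (r (m + t • e)) := by
      apply Re.one
      have a1 := dist_rr (m + s • e) (m + t • e)
      have a2 := b s s0 (by linarith)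
      have a3 := b t h0 (by linarith)
      rw [dist_add_left, dist_eq_norm (s • e), ← sub_smul, norm_smul, he, Real.norm_eq_abs,
        abs_of_nonpos (by linarith)] at a1
      linarith
    rcases le_total (t - (1 - 2 * ε)) 0 with h3 | h3
    · have s3 : s = 0 := max_eq_left h3
      rw [s3, zero_smul, add_zero] at c1
      refine c1.mono ?_
      have : 1 / (t + 1) ≤ 1 := by rw [div_le_one (by linarith)]; linarith
      linarith
    · have s3 : s = t - (1 - 2 * ε) := max_eq_right h3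
      refine ((ih s s0 (by push_cast at h1; linarith)).trans c1).mono ?_
      have d1 : 1 / (t + 1) + 2 * ε ≤ 1 / (s + 1) := by
        have d2 : 1 / (t + 1 / 2) ≤ 1 / (s + 1) :=
          one_div_le_one_div_of_le (by linarith) (by linarith)
        refine le_trans ?_ d2
        simp only [ε]
        rw [show 1 / (t + 1) + 2 * (1 / (4 * (t + 1) ^ 2)) = (t + 3 / 2) / (t + 1) ^ 2 by
          field_simp; ring, div_le_div_iff₀ (by positivity) (by linarith)]
        nlinarith
      linarith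

theorem ray' (m y : E) (h : 0 ≤ inner ℝ m (y - m)) : Re (dist m y + 2) (r m) (r y) := by
  by_cases e : y = m
  · subst e
    exact ⟨.nil, by simp⟩
  have h0 : 0 < ‖y - m‖ := norm_pos_iff.2 (sub_ne_zero.2 e)
  let u : E := ‖y - m‖⁻¹ • (y - m)
  have hu : ‖u‖ = 1 := norm_smul_inv_norm (sub_ne_zero.2 e)
  have h1 : 0 ≤ inner ℝ m u := by
    rw [inner_smul_right]
    positivity
  obtain ⟨k, hk⟩ := exists_nat_ge (2 * ‖y - m‖)
  have h2 := ray m u hu (fun t ht => by
    rw [← sq_le_sq₀ ht (norm_nonneg _)]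
    rw [norm_add_sq_real, inner_smul_right, norm_smul, hu, Real.norm_of_nonneg ht]
    nlinarith [sq_nonneg ‖m‖, mul_nonneg ht h1]) k ‖y - m‖ h0.le (by linarith)
  have h3 : m + ‖y - m‖ • u = y := by
    simp only [u]
    rw [smul_smul, mul_inv_cancel₀ h0.ne', one_smul]
    abel
  rw [h3] at h2
  refine h2.mono ?_
  rw [dist_comm, dist_eq_norm]
  have : 0 < 1 / (‖y - m‖ + 1) := by positivity
  linarith

theorem upper (u v : V) : Re (dist (f u) (f v) + 6) u v := by
  obtain ⟨m, hm, h⟩ := exists_norm_eq_iInf_of_complete_convex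
    (K := segment ℝ (f u) (f v)) ⟨_, left_mem_segment ℝ _ _⟩
    (by rw [segment_eq_image]
        exact (isCompact_Icc.image (by fun_prop)).isComplete) (convex_segment _ _) 0
  rw [norm_eq_iInf_iff_real_inner_le_zero (convex_segment _ _) hm] at h
  have h1 : ∀ y ∈ segment ℝ (f u) (f v), 0 ≤ inner ℝ m (y - m) := by
    intro y hy
    have := h y hy
    rw [zero_sub, inner_neg_left] at this
    linarith
  have a1 := ray' m _ (h1 _ (left_mem_segment ℝ _ _))
  have a2 := ray' m _ (h1 _ (right_mem_segment ℝ _ _))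
  have a3 : ∀ w : V, Re 1 (r (f w)) w := fun w => Re.one ((r_quarter _).trans (by norm_num))
  have a4 := dist_add_dist_of_mem_segment hm
  refine ((((a3 u).symm.trans a1.symm).trans a2).trans (a3 v)).mono ?_
  rw [dist_comm m (f u)]
  linarith

theorem lower {u v : V} (p : G.Walk u v) : dist (f u) (f v) ≤ p.length := by
  induction p with
  | nil => simp
  | @cons a b c h p ih =>
    have := dist_triangle (f a) (f b) (f c)
    have h2 := h.2
    rw [SimpleGraph.Walk.length_cons]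
    push_cast
    linarith

theorem conn : G.Connected := by
  have : Nonempty V := ⟨r 0⟩
  exact ⟨fun u v => ⟨(upper u v).choose⟩⟩

theorem fin_nb (v : V) : (G.neighborSet v).Finite := by
  obtain ⟨k, hk⟩ := exists_nat_ge (‖f v‖ + 2)
  obtain ⟨M, hM⟩ := exists_nat_ge (k * N k)
  have h1 : ((Set.Icc 0 k) ×ˢ (Set.Icc (-(M : ℤ)) M) ×ˢ (Set.Icc (-(M : ℤ)) M)).Finite :=
    (Set.finite_Icc _ _).prod ((Set.finite_Icc _ _).prod (Set.finite_Icc _ _))
  refine (h1.preimage (Subtype.val_injective.injOn)).subset ?_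
  rintro ⟨⟨n, a, b⟩, hq⟩ hw
  have h2 : dist (f v) (pt (n, a, b)) ≤ 1 := hw.2
  have h3 := norm_sub_norm_le (pt (n, a, b)) (f v)
  rw [← dist_eq_norm, dist_comm] at h3
  have h4 : (n : ℝ) ≤ k := by simp only at hq; linarith
  have h5 : N n ≤ N k := by
    unfold N
    have : (0 : ℝ) ≤ n := Nat.cast_nonneg _
    nlinarith
  have h6 : ∀ c : ℤ, ‖(c : ℝ) / N n‖ ≤ ‖pt (n, a, b)‖ → c ∈ Set.Icc (-(M : ℤ)) M := by
    intro c hc
    rw [Real.norm_eq_abs, abs_div, abs_of_pos (N_pos n), div_le_iff₀ (N_pos n)] at hc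
    have h7 : ‖pt (n, a, b)‖ * N n ≤ k * N k :=
      mul_le_mul (by linarith) h5 (N_pos n).le (Nat.cast_nonneg _)
    have h8 : |(c : ℝ)| ≤ M := by linarith
    rw [Set.mem_Icc, ← abs_le]
    exact_mod_cast h8
  refine ⟨⟨Nat.zero_le _, by exact_mod_cast h4⟩, h6 a ?_, h6 b ?_⟩
  · simpa [pt] using PiLp.norm_apply_le (pt (n, a, b)) 0
  · simpa [pt] using PiLp.norm_apply_le (pt (n, a, b)) 1

theorem result : ∃ (V : Type) (G : SimpleGraph V) (f : V → EuclideanSpace ℝ (Fin 2)) (C : ℝ),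
    G.Connected ∧ (∀ v, (G.neighborSet v).Finite) ∧ 0 < C ∧
    (∀ x y, |‖f x - f y‖ - (G.dist x y : ℝ)| < C) ∧ ∀ z, ∃ x, ‖f x - z‖ < C := by
  refine ⟨V, G, f, 7, conn, fin_nb, by norm_num, fun x y => ?_, fun z => ⟨r z, ?_⟩⟩
  · obtain ⟨p, hp⟩ := upper x y
    obtain ⟨q, hq⟩ := conn.exists_walk_length_eq_dist x y
    have h1 := lower q
    have h2 : (G.dist x y : ℝ) ≤ p.length := by exact_mod_cast SimpleGraph.dist_le p
    rw [hq] at h1
    rw [← dist_eq_norm, abs_lt]
    constructor <;> linarith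
  · have := r_quarter z
    rw [← dist_eq_norm]
    linarith

end Pool.Agent.Results.MP_8ede36_co.Plane
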